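import Pool.Agent.Helper62.PM.Fin
import Pool.Agent.Helper72.PM.M_A
import Pool.Agent.Helper71.PM.M_B
import Pool.Agent.Helper55.PM.M_D
import Pool.Agent.Helper22.PM.M_E
import Pool.Agent.Helper57.PM.M_F
import Pool.Agent.Helper36.PM.M_G
import Pool.Agent.Helper45.PM.M_H
import Pool.Agent.Helper51.PM.M_I
import Pool.Agent.Helper60.PM.M_L
import Pool.Agent.Helper87.PM.M_XA
import Pool.Agent.Helper45.PM.M_XB
import Pool.Agent.Helper85.PM.M_XC
import Pool.Agent.Helper48.PM.M_XL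
import Pool.Agent.Helper27.PM.M_XD
import Pool.Agent.Helper47.PM.M_XE
import Pool.Agent.Helper88.PM.M_XF
import Pool.Agent.Helper51.PM.M_XG
import Pool.Agent.Helper17.PM.M_XH
import Pool.Agent.Helper21.PM.M_XI
import Pool.Agent.Helper98.PM.M_XJ
import Pool.Agent.Helper70.PM.M_XK
import Pool.Agent.Helper62.PM.M_XM
import Pool.Agent.Helper25.PM.M_SA
import Pool.Agent.Helper42.PM.M_SB
import Pool.Agent.Helper62.PM.M_SC

/-!
# Which zonal distributions generate an admissible map: a necessary and sufficient condition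

`n ≥ 3`, `e, v` orthonormal.  A zonal distribution `μ` generates an admissible map if and only if `μ (L h_K) ≥ 0` for all smooth convex bodies `K`,
`L f(x) = (∂_t² + 1) f(R_t x)` at `t = 0`, `R_t` the rotation by the angle `t` in the plane of `e` and `v`; equivalently the distribution `f ↦ μ (L f)` is an average
`∫ D²f(x)(y,y) dm(x,y)` over a finite positive measure `m` on the orthonormal pairs.
-/

set_option autoImplicit false

namespace Pool.Agent.Results.MP_ae3a4d_gt.CurvatureCriterion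

open MeasureTheory Metric Set Filter Topology
open scoped RealInnerProductSpace ContDiff
open Pool.Agent.Helper62.Mink

/-- convex bodies in `ℝⁿ` -/
abbrev Body (n : ℕ) : Type := ConvexBody (E n)

/-- measures on the pairs of points of `ℝⁿ` -/
abbrev PairMeasure (n : ℕ) : Type := Measure (E n × E n)

/-- `K` has a support function which is `C^∞` off the origin -/
def SmoothBody {n : ℕ} (K : Body n) : Prop := ContDiffOn ℝ ∞ (supp K) {0}ᶜ

/-- `f` is positively homogeneous of degree one and `C^∞` off the origin: the extension of a `C^∞`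
function on the unit sphere -/
structure Smooth1 {n : ℕ} (f : E n → ℝ) : Prop where
  hom : ∀ c : ℝ, 0 ≤ c → ∀ x, f (c • x) = c * f x
  smooth : ContDiffOn ℝ ∞ f {0}ᶜ

/-- `x, y` are orthonormal -/
def Ortho {n : ℕ} (x y : E n) : Prop := ‖x‖ = 1 ∧ ‖y‖ = 1 ∧ (inner ℝ x y : ℝ) = 0

/-- the rotation by the angle `t` in the plane of `e` and `v` (for orthonormal `e, v` it maps `e` to
`cos t e + sin t v`, `v` to `cos t v - sin t e` and fixes the vectors orthogonal to `e` and `v`) -/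
noncomputable def turn {n : ℕ} (e v : E n) (t : ℝ) (x : E n) : E n :=
  x + ((Real.cos t - 1) * inner ℝ e x - Real.sin t * inner ℝ v x) • e +
    (Real.sin t * inner ℝ e x + (Real.cos t - 1) * inner ℝ v x) • v

/-- `(∂_t² + 1) f(R_t x)` at `t = 0`, with `R_t` the rotation by the angle `t` in the plane of `e` and `v` -/
noncomputable def L {n : ℕ} (e v : E n) (f : E n → ℝ) (x : E n) : ℝ :=
  deriv (deriv fun t => f (turn e v t x)) 0 + f x

/-- `D²f(x)(y,y)` -/
noncomputable def Rad {n : ℕ} (f : E n → ℝ) (x y : E n) : ℝ :=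
  fderiv ℝ (fun z => fderiv ℝ f z y) x y

/-- zonal distributions: linear functionals on the `C^∞` functions on the sphere (extended to be
homogeneous of degree one), continuous, invariant under the rotations which fix `e` -/
structure Zonal {n : ℕ} (e : E n) (μ : (E n → ℝ) → ℝ) : Prop where
  add : ∀ f g : E n → ℝ, Smooth1 f → Smooth1 g → μ (fun z => f z + g z) = μ f + μ g
  smul : ∀ (c : ℝ) (f : E n → ℝ), Smooth1 f → μ (fun z => c * f z) = c * μ f
  continuous : ∃ (N : ℕ) (C : ℝ), ∀ f : E n → ℝ, Smooth1 f → ∀ B : ℝ,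
    (∀ j ≤ N, ∀ x : E n, ‖x‖ = 1 → ‖iteratedFDeriv ℝ j f x‖ ≤ B) → |μ f| ≤ C * B
  zonal : ∀ θ : E n ≃ₗᵢ[ℝ] E n, IsRot θ → θ e = e → ∀ f : E n → ℝ, Smooth1 f →
    μ (fun z => f (θ z)) = μ f

/-- `μ` generates `T`: `h_{TK}(θ e) = μ (h_K ∘ θ)` for all `K` with `C^∞` support function and all rotations -/
def Generates {n : ℕ} (e : E n) (μ : (E n → ℝ) → ℝ) (T : Body n → Body n) : Prop :=
  ∀ K : Body n, SmoothBody K → ∀ θ : E n ≃ₗᵢ[ℝ] E n, IsRot θ →
    supp (T K) (θ e) = μ (fun z => supp K (θ z))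

/-- `μ` generates an admissible map -/
def GeneratesAdmissible {n : ℕ} (e : E n) (μ : (E n → ℝ) → ℝ) : Prop :=
  ∃ T : Body n → Body n, Admissible T ∧ Generates e μ T

/-- `m` is a finite (positive) measure on the orthonormal pairs -/
structure OnOrtho {n : ℕ} (m : PairMeasure n) : Prop where
  finite : IsFiniteMeasure m
  ortho : m {p | ¬ Ortho p.1 p.2} = 0

/-- `∫ F(x,y) dm(x,y)` -/
noncomputable def mean {n : ℕ} (m : PairMeasure n) (F : E n → E n → ℝ) : ℝ := ∫ p, F p.1 p.2 ∂m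

/-- `T` averages the radii of curvature with the weight `m`:
`D²h_{TK}(θe)(θv,θv) = ∫ D²h_K(θx)(θy,θy) dm(x,y)` for all smooth bodies `K` and all rotations `θ` -/
def Averages {n : ℕ} (e v : E n) (m : PairMeasure n) (T : Body n → Body n) : Prop :=
  ∀ K : Body n, SmoothBody K → SmoothBody (T K) ∧ ∀ θ : E n ≃ₗᵢ[ℝ] E n, IsRot θ →
    Rad (supp (T K)) (θ e) (θ v) = mean m (fun x y => Rad (supp K) (θ x) (θ y))

theorem result (n : ℕ) (hn : 3 ≤ n) (e v : E n) (hev : Ortho e v) :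
    (∀ μ : (E n → ℝ) → ℝ, Zonal e μ →
      (GeneratesAdmissible e μ ↔ ∀ K : Body n, SmoothBody K → 0 ≤ μ (L e v (supp K))) ∧
      (GeneratesAdmissible e μ ↔ ∃ m : PairMeasure n, OnOrtho m ∧
        ∀ f : E n → ℝ, Smooth1 f → μ (L e v f) = mean m (Rad f))) ∧
    ∀ T : Body n → Body n, Admissible T →
      (∃ μ : (E n → ℝ) → ℝ, Zonal e μ ∧ Generates e μ T) ∧
      ∃ m : PairMeasure n, OnOrtho m ∧ Averages e v m T := by
  have hA := Pool.Agent.Helper72.PM.hA
  have hB := Pool.Agent.Helper71.PM.hB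
  have hD := Pool.Agent.Helper55.PM.hD
  have hE := Pool.Agent.Helper22.PM.hE
  have hF := Pool.Agent.Helper57.PM.hF hB
  have hG := Pool.Agent.Helper36.PM.hG
  have hH := Pool.Agent.Helper45.PM.hH
  have hI := Pool.Agent.Helper51.PM.hI hD hE hF hH
  have hL := Pool.Agent.Helper60.PM.hL
  have hXA := Pool.Agent.Helper87.PM.hXA
  have hXB := Pool.Agent.Helper45.PM.hXB hXA
  have hXC := Pool.Agent.Helper85.PM.hXC hA hB hXA
  have hXL := Pool.Agent.Helper48.PM.hXL hA hXA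
  have hXD := Pool.Agent.Helper27.PM.hXD hA hD hXA hXB hXL
  have hXE := Pool.Agent.Helper47.PM.hXE hA hD hE hL hXA hXC
  have hXF := Pool.Agent.Helper88.PM.hXF
  have hXG := Pool.Agent.Helper51.PM.hXG hA hXA
  have hXH := Pool.Agent.Helper17.PM.hXH hD hL hXG
  have hXI := Pool.Agent.Helper21.PM.hXI hD hXA hXF hXG hXH
  have hXJ := Pool.Agent.Helper98.PM.hXJ
  have hXK := Pool.Agent.Helper70.PM.hXK hD hXF hXI hXJ
  have hXM := Pool.Agent.Helper62.PM.hXM
  have hSA := Pool.Agent.Helper25.PM.hSA hA hXA hXL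
  have hSB := Pool.Agent.Helper42.PM.hSB hA hD hXA hSA
  have hSC := Pool.Agent.Helper62.PM.hSC hXA hSB
  have s1 : ∀ φ : E n → ℝ, Smooth1 φ → Pool.Agent.Helper62.PM.S1 φ := fun φ h => ⟨h.hom, h.smooth⟩
  have s2 : ∀ φ : E n → ℝ, Pool.Agent.Helper62.PM.S1 φ → Smooth1 φ := fun φ h => ⟨h.hom, h.smooth⟩
  have z1 : ∀ μ : (E n → ℝ) → ℝ, Zonal e μ → Pool.Agent.Helper62.PM.ZDist e μ := by
    intro μ h
    obtain ⟨N, C, hC⟩ := h.continuous
    exact ⟨fun φ ψ h1 h2 => h.add φ ψ (s2 _ h1) (s2 _ h2), fun c φ h1 => h.smul c φ (s2 _ h1),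
      ⟨N, C, fun φ h1 => hC φ (s2 _ h1)⟩, fun θ h1 h2 φ h3 => h.zonal θ h1 h2 φ (s2 _ h3)⟩
  have z2 : ∀ μ : (E n → ℝ) → ℝ, Pool.Agent.Helper62.PM.ZDist e μ → Zonal e μ := by
    intro μ h
    obtain ⟨N, C, hC⟩ := h.cont
    exact ⟨fun φ ψ h1 h2 => h.add φ ψ (s1 _ h1) (s1 _ h2), fun c φ h1 => h.smul c φ (s1 _ h1),
      ⟨N, C, fun φ h1 => hC φ (s1 _ h1)⟩, fun θ h1 h2 φ h3 => h.zonal θ h1 h2 φ (s1 _ h3)⟩
  have hev' : Pool.Agent.Helper62.PM.ON (e, v) := hev
  refine ⟨fun μ hμ => ?_, fun T hT => ⟨?_, ?_⟩⟩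
  · have hz := z1 μ hμ
    have hab : GeneratesAdmissible e μ →
        ∀ K : Body n, SmoothBody K → 0 ≤ μ (L e v (supp K)) := by
      rintro ⟨T, -, hg⟩ K hK
      exact Pool.Agent.Helper62.PM.crit_b hA hD hXA hXB hXC hev' hz hg K hK
    have hbc : (∀ K : Body n, SmoothBody K → 0 ≤ μ (L e v (supp K))) →
        ∃ m : PairMeasure n, OnOrtho m ∧
          ∀ f : E n → ℝ, Smooth1 f → μ (L e v f) = mean m (Rad f) := by
      intro h
      obtain ⟨m, h1, h2, h3⟩ := Pool.Agent.Helper62.PM.crit_c hA hD hE hF hG hXA hXB hXC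
        (by omega) hev' hz h
      exact ⟨m, ⟨h1, h2⟩, fun f hf => h3 f (s1 f hf)⟩
    have hca : (∃ m : PairMeasure n, OnOrtho m ∧
          ∀ f : E n → ℝ, Smooth1 f → μ (L e v f) = mean m (Rad f)) →
        GeneratesAdmissible e μ := by
      rintro ⟨m, ⟨h1, h2⟩, h3⟩
      exact Pool.Agent.Helper62.PM.crit_a hXD hXE hXK hXM hn hev' hz h1 h2
        fun f hf => h3 f (s2 f hf)
    exact ⟨⟨hab, fun h => hca (hbc h)⟩, ⟨fun h => hbc (hab h), hca⟩⟩
  · obtain ⟨μ, h1, h2⟩ := Pool.Agent.Helper62.PM.gen_exists hI (by omega) hev.1 hT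
    exact ⟨μ, z2 μ h1, h2⟩
  · obtain ⟨m, h1, h2, h3⟩ := Pool.Agent.Helper62.PM.average hA hD hE hF hG hI hXA hXB hXC hXD
      hSC hn hev' hT
    exact ⟨m, ⟨h1, h2⟩, h3⟩

end Pool.Agent.Results.MP_ae3a4d_gt.CurvatureCriterion
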