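import Pool.Agent.Helper62.PM.HQ
import Pool.Agent.Helper62.PM.NE3
import Pool.Agent.Helper62.MU.Fin2
import Pool.Agent.Helper72.PM.M_A
import Pool.Agent.Helper71.PM.M_B
import Pool.Agent.Helper55.PM.M_D
import Pool.Agent.Helper22.PM.M_E
import Pool.Agent.Helper57.PM.M_F
import Pool.Agent.Helper36.PM.M_G
import Pool.Agent.Helper60.PM.M_L
import Pool.Agent.Helper87.PM.M_XA
import Pool.Agent.Helper45.PM.M_XB
import Pool.Agent.Helper85.PM.M_XC
import Pool.Agent.Helper48.PM.M_XL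
import Pool.Agent.Helper27.PM.M_XD
import Pool.Agent.Helper47.PM.M_XE
import Pool.Agent.Helper88.PM.M_XF
import Pool.Agent.Helper51.PM.M_XG
import Pool.Agent.Helper17.PM.M_XH
import Pool.Agent.Helper21.PM.M_XI
import Pool.Agent.Helper98.PM.M_XJ
import Pool.Agent.Helper70.PM.M_XK
import Pool.Agent.Helper62.PM.M_XM
import Pool.Agent.Helper16.PM.M_NE
import Pool.Agent.Helper29.PM.M_NF
import Pool.Agent.Helper84.PM.M_TR2
import Pool.Agent.Helper3.PM.M_IBS
import Pool.Agent.Helper51.PM.M_APX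
import Pool.Agent.Helper45.PM.M_CMP
import Pool.Agent.Helper36.PM.M_LAW
import Pool.Agent.Helper5.PM.M_NEC2

/-!
# The behaviour of the density at the equator decides in high dimension

Let `f` be continuous on `[-1,1]`; call `f` good in dimension `n` if the zonal density `w ↦ f⟨e,w⟩` on the unit sphere of `ℝⁿ` generates an admissible map.
Subtracting a linear function `b t` from `f` changes nothing.  If, for some `b`, the difference `f(t) - b t` starts on each side of the equator with a nonnegative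
stretch which either goes up to the pole or contains a point where it is positive, then `f` is good in all sufficiently high dimensions, however negative it is
elsewhere.  If, for every `b`, the difference starts on one side with a nonpositive stretch which contains a point where it is negative, then `f` is good in no
dimension `n ≥ 3`.  One of the two cases occurs unless `f` oscillates.  The engine is an explicit family of densities which are good in a given dimension `n ≥ 3`: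
with `ψ(t) = (t - r)₊² + (-t - r')₊²` and its primitive `Ψ` the density `(1 - t²/2) ψ(t) - (n/2) t Ψ(t)`.
-/

set_option autoImplicit false

namespace Pool.Agent.Results.MP_ae3a4d_gt.EquatorValue

open MeasureTheory Metric Set Filter Topology
open Pool.Agent.Helper62.Mink

/-- the zonal density `w ↦ f⟨e,w⟩` on the unit sphere of `ℝⁿ` generates an admissible map -/
def GeneratesAdmissible {n : ℕ} (e : E n) (f : ℝ → ℝ) : Prop :=
  ∃ T : ConvexBody (E n) → ConvexBody (E n), Admissible T ∧ Generates e f T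

/-- good in dimension `n` (for every pole) -/
def Good (n : ℕ) (f : ℝ → ℝ) : Prop := ∀ e : E n, ‖e‖ = 1 → GeneratesAdmissible e f

/-- good in dimension `n` for no pole -/
def Bad (n : ℕ) (f : ℝ → ℝ) : Prop := ∀ e : E n, ‖e‖ = 1 → ¬ GeneratesAdmissible e f

/-- `g ≥ 0` on `[0,1]`, or `g ≥ 0` on `[0,r]` and `g(r) > 0` for some `r` in `(0,1)` -/
def PosFirst (g : ℝ → ℝ) : Prop :=
  (∀ t ∈ Icc (0 : ℝ) 1, 0 ≤ g t) ∨ ∃ r ∈ Ioo (0 : ℝ) 1, (∀ t ∈ Icc 0 r, 0 ≤ g t) ∧ 0 < g r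

/-- `g ≤ 0` on `[0,r]` and `g(r) < 0` for some `r` in `(0,1)` -/
def NegFirst (g : ℝ → ℝ) : Prop :=
  ∃ r ∈ Ioo (0 : ℝ) 1, (∀ t ∈ Icc 0 r, g t ≤ 0) ∧ g r < 0

/-- with `x = (t - r)₊`, `y = (-t - r')₊`: `(1 - t²/2)(x² + y²) - (n/6) t (x³ - y³)` -/
noncomputable def band (n : ℕ) (r r' t : ℝ) : ℝ :=
  (1 - t ^ 2 / 2) * (max (t - r) 0 ^ 2 + max (-t - r') 0 ^ 2) -
    (n : ℝ) / 6 * t * (max (t - r) 0 ^ 3 - max (-t - r') 0 ^ 3)

theorem result (f : ℝ → ℝ) (hf : ContinuousOn f (Icc (-1) 1)) :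
    (∀ n : ℕ, 3 ≤ n → ∀ b p a r r' : ℝ, 0 ≤ p → 0 ≤ a → 0 < r → 0 < r' →
      (∀ t ∈ Icc (-1 : ℝ) 1,
        b * t + p * (1 - ((n : ℝ) + 1) / 3 * t ^ 2) + a * band n r r' t ≤ f t) → Good n f) ∧
    ((∃ b : ℝ, PosFirst (fun t => f t - b * t) ∧ PosFirst (fun t => f (-t) + b * t)) →
      ∃ n₀ : ℕ, ∀ n : ℕ, n₀ ≤ n → Good n f) ∧
    ((∀ b : ℝ, NegFirst (fun t => f t - b * t) ∨ NegFirst (fun t => f (-t) + b * t)) →
      ∀ n : ℕ, 3 ≤ n → Bad n f) ∧
    ∀ (b c : ℝ) (k : ℕ), k ≠ 1 → c ≠ 0 →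
      Tendsto (fun t : ℝ => (f t - b * t) / t ^ k) (𝓝[≠] 0) (𝓝 c) →
        ((Even k ∧ 0 < c) → ∃ n₀ : ℕ, ∀ n : ℕ, n₀ ≤ n → Good n f) ∧
        (¬(Even k ∧ 0 < c) → ∀ n : ℕ, 3 ≤ n → Bad n f) := by
  have hT := Pool.Agent.Helper84.PM6.hTR2
  have hI := Pool.Agent.Helper3.PM6.hIBS
  have hX := Pool.Agent.Helper51.PM6.hAPX
  have hCM := Pool.Agent.Helper45.PM6.hCMP
  have hLA := Pool.Agent.Helper36.PM6.hLAW
  have hN2 := Pool.Agent.Helper5.PM7.hNEC2
  have hA := Pool.Agent.Helper72.PM.hA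
  have hB := Pool.Agent.Helper71.PM.hB
  have hD := Pool.Agent.Helper55.PM.hD
  have hE := Pool.Agent.Helper22.PM.hE
  have hF := Pool.Agent.Helper57.PM.hF hB
  have hG := Pool.Agent.Helper36.PM.hG
  have hL := Pool.Agent.Helper60.PM.hL
  have hXA := Pool.Agent.Helper87.PM.hXA
  have hXB := Pool.Agent.Helper45.PM.hXB hXA
  have hXC := Pool.Agent.Helper85.PM.hXC hA hB hXA
  have hXL := Pool.Agent.Helper48.PM.hXL hA hXA
  have hXD := Pool.Agent.Helper27.PM.hXD hA hD hXA hXB hXL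
  have hXE := Pool.Agent.Helper47.PM.hXE hA hD hE hL hXA hXC
  have hXF := Pool.Agent.Helper88.PM.hXF
  have hXG := Pool.Agent.Helper51.PM.hXG hA hXA
  have hXH := Pool.Agent.Helper17.PM.hXH hD hL hXG
  have hXI := Pool.Agent.Helper21.PM.hXI hD hXA hXF hXG hXH
  have hXJ := Pool.Agent.Helper98.PM.hXJ
  have hXK := Pool.Agent.Helper70.PM.hXK hD hXF hXI hXJ
  have hXM := Pool.Agent.Helper62.PM.hXM
  have hNE := Pool.Agent.Helper16.PM.hNE hA
  have hNF := Pool.Agent.Helper29.PM.hNF hA hNE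
  have hpr : ∀ (n : ℕ) (r r' : ℝ), Pool.Agent.Helper62.PM6.pr n r r' = band n r r' := by
    intro n r r'
    funext t
    unfold Pool.Agent.Helper62.PM6.pr Pool.Agent.Helper62.PM6.psi Pool.Agent.Helper62.PM6.Psi band
    ring
  -- sufficiency in a fixed dimension
  have expl : ∀ n : ℕ, 3 ≤ n → ∀ b p a r r' : ℝ, 0 ≤ p → 0 ≤ a → 0 < r → 0 < r' →
      (∀ t ∈ Icc (-1 : ℝ) 1,
        b * t + p * (1 - ((n : ℝ) + 1) / 3 * t ^ 2) + a * band n r r' t ≤ f t) → Good n f := by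
    intro n hn b p a r r' hp ha hr hr' hle e he
    have hc0 : Continuous fun t : ℝ => b * t + p * (1 - ((n : ℝ) + 1) / 3 * t ^ 2) := by fun_prop
    have hc : Continuous fun t : ℝ => b * t + p * (1 - ((n : ℝ) + 1) / 3 * t ^ 2) +
        a * Pool.Agent.Helper62.PM6.pr n r r' t :=
      hc0.add (continuous_const.mul (Pool.Agent.Helper62.PM6.pr_cont n r r'))
    have h3 := exists_admissible (n := n) (e := e) hc.continuousOn
      (((Pool.Agent.Helper62.PM6.Sub_lin n b).add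
        ((Pool.Agent.Helper62.PM6.Sub_par hn).smul hp) (by fun_prop) (by fun_prop)).add
        ((Pool.Agent.Helper62.PM6.Sub_pr hT hI hX (by omega) hr hr').smul ha) hc0.continuousOn
        (continuous_const.mul (Pool.Agent.Helper62.PM6.pr_cont n r r')).continuousOn) he
    refine Pool.Agent.Helper62.PM.dens_mono hA hD hE hF hG hXA hXB hXC hXD hXE hXK hXM hNF hn he hf
      hc.continuousOn (fun t ht => ?_) h3
    rw [hpr]
    exact hle t ht
  -- sufficiency in high dimension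
  have suf : ∀ b : ℝ, PosFirst (fun t => f t - b * t) → PosFirst (fun t => f (-t) + b * t) →
      ∃ n₀ : ℕ, ∀ n : ℕ, n₀ ≤ n → Good n f := by
    intro b h1 h2
    obtain ⟨r, r', hr, hr', N, hN⟩ := hCM f b hf h1 h2
    refine ⟨max 3 N, fun n hn => expl n ((le_max_left _ _).trans hn) b 0 1 r r' le_rfl zero_le_one
      hr hr' fun t ht => ?_⟩
    have := hN n ((le_max_right _ _).trans hn) t ht
    rw [hpr] at this
    rwa [one_mul, zero_mul, add_zero]
  -- the value at the equator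
  have nec : f 0 < 0 → ∀ n : ℕ, 3 ≤ n → Bad n f := by
    intro h0 n hn e he hG
    have h1 := segment_test n hn e he f hf hG 0 ⟨le_rfl, zero_le_one⟩
    have h2 : ∫ θ in (0 : ℝ)..Real.pi, f (0 * Real.cos θ) * Real.cos θ ^ 2 * Real.sin θ ^ (n - 3) =
        f 0 * ∫ θ in (0 : ℝ)..Real.pi, Real.cos θ ^ 2 * Real.sin θ ^ (n - 3) := by
      rw [← intervalIntegral.integral_const_mul]
      congr 1
      funext θ
      rw [zero_mul]
      ring
    rw [h2] at h1
    have h3 : 0 < ∫ θ in (0 : ℝ)..Real.pi, Real.cos θ ^ 2 * Real.sin θ ^ (n - 3) := by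
      have hc : Continuous fun θ : ℝ => Real.cos θ ^ 2 * Real.sin θ ^ (n - 3) := by fun_prop
      have hnn : ∀ θ ∈ Icc (0 : ℝ) Real.pi, 0 ≤ Real.cos θ ^ 2 * Real.sin θ ^ (n - 3) := fun θ hθ =>
        mul_nonneg (sq_nonneg _) (pow_nonneg (Real.sin_nonneg_of_nonneg_of_le_pi hθ.1 hθ.2) _)
      refine intervalIntegral.integral_pos Real.pi_pos hc.continuousOn
        (fun θ hθ => hnn θ ⟨hθ.1.le, hθ.2⟩) ⟨Real.pi / 4, ⟨by positivity, by linarith [Real.pi_pos]⟩, ?_⟩
      rw [Real.cos_pi_div_four, Real.sin_pi_div_four]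
      positivity
    have := mul_neg_of_neg_of_pos h0 h3
    linarith
  -- necessity
  have nec2 : ∀ b : ℝ, Tendsto (fun t : ℝ => (f t - b * t) / t) (𝓝[≠] 0) (𝓝 0) →
      (NegFirst (fun t => f t - b * t) ∨ NegFirst (fun t => f (-t) + b * t)) →
        ∀ n : ℕ, 3 ≤ n → Bad n f := by
    intro b hb hneg n hn e he hG
    refine hN2 n hn f b hf hb hneg fun β α h0 h1 h2 h3 => ?_
    obtain ⟨m, rfl⟩ : ∃ m, n = m + 2 := ⟨n - 2, by omega⟩
    have e1 : m + 2 - 3 = m - 1 := by omega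
    have e2 : m + 2 - 2 = m := by omega
    have e3 : (((m + 2 : ℕ) : ℝ) - 2) = m := by push_cast; ring
    have hd : Pool.Agent.Helper62.PM6.dco (m + 2) f β α = Pool.Agent.Helper62.MU2.DCe m f β α := by
      unfold Pool.Agent.Helper62.PM6.dco Pool.Agent.Helper62.MU2.DCe
      rw [e1, e2, e3]
    rw [hd]
    exact Pool.Agent.Helper62.MU2.dc_test Pool.Agent.Helper62.MU2.allSt m (by omega) e he f hf hG
      β α h0 h1 h2 h3
  -- necessity, all linear functions at once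
  have nec3 : (∀ b : ℝ, NegFirst (fun t => f t - b * t) ∨ NegFirst (fun t => f (-t) + b * t)) →
      ∀ n : ℕ, 3 ≤ n → Bad n f := by
    intro hneg n hn e he hG
    refine Pool.Agent.Helper62.PM6.nec3 n hn f hf hneg fun β α h0 h1 h2 h3 => ?_
    obtain ⟨m, rfl⟩ : ∃ m, n = m + 2 := ⟨n - 2, by omega⟩
    have e1 : m + 2 - 3 = m - 1 := by omega
    have e2 : m + 2 - 2 = m := by omega
    have e3 : (((m + 2 : ℕ) : ℝ) - 2) = m := by push_cast; ring
    have hd : Pool.Agent.Helper62.PM6.dco (m + 2) f β α = Pool.Agent.Helper62.MU2.DCe m f β α := by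
      unfold Pool.Agent.Helper62.PM6.dco Pool.Agent.Helper62.MU2.DCe
      rw [e1, e2, e3]
    rw [hd]
    exact Pool.Agent.Helper62.MU2.dc_test Pool.Agent.Helper62.MU2.allSt m (by omega) e he f hf hG
      β α h0 h1 h2 h3
  refine ⟨expl, fun ⟨b, h1, h2⟩ => suf b h1 h2, nec3, fun b c k hk hc hlim => ?_⟩
  obtain ⟨l1, l2⟩ := hLA f b c k hf hk hc hlim
  refine ⟨fun h => suf b (l1 h).1 (l1 h).2, fun h => ?_⟩
  rcases l2 h with h0 | ⟨h1, h2⟩
  · exact nec h0
  · exact nec2 b h1 h2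

end Pool.Agent.Results.MP_ae3a4d_gt.EquatorValue
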