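import Pool.Agent.Helper62.PM.Fin5
import Pool.Agent.Helper72.PM.M_A
import Pool.Agent.Helper71.PM.M_B
import Pool.Agent.Helper55.PM.M_D
import Pool.Agent.Helper22.PM.M_E
import Pool.Agent.Helper57.PM.M_F
import Pool.Agent.Helper36.PM.M_G
import Pool.Agent.Helper60.PM.M_L
import Pool.Agent.Helper87.PM.M_XA
import Pool.Agent.Helper45.PM.M_XB
import Pool.Agent.Helper85.PM.M_XC
import Pool.Agent.Helper48.PM.M_XL
import Pool.Agent.Helper27.PM.M_XD
import Pool.Agent.Helper47.PM.M_XE
import Pool.Agent.Helper88.PM.M_XF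
import Pool.Agent.Helper51.PM.M_XG
import Pool.Agent.Helper17.PM.M_XH
import Pool.Agent.Helper21.PM.M_XI
import Pool.Agent.Helper98.PM.M_XJ
import Pool.Agent.Helper70.PM.M_XK
import Pool.Agent.Helper62.PM.M_XM
import Pool.Agent.Helper51.PM.M_NA
import Pool.Agent.Helper80.PM.M_NB
import Pool.Agent.Helper66.PM.M_NC
import Pool.Agent.Helper56.PM.M_NM
import Pool.Agent.Helper69.PM.M_ND
import Pool.Agent.Helper73.PM.M_NP
import Pool.Agent.Helper16.PM.M_NE
import Pool.Agent.Helper29.PM.M_NF
import Pool.Agent.Helper53.PM.M_PA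
import Pool.Agent.Helper55.PM.M_PB
import Pool.Agent.Helper15.PM.M_PC
import Pool.Agent.Helper40.PM.M_PD
import Pool.Agent.Helper84.PM.M_PE
import Pool.Agent.Helper27.PM.M_PF
import Pool.Agent.Helper3.PM.M_C

/-!
# The generating measure of an admissible map has a nonnegative singular part

`n ≥ 3`.  If the zonal signed measure `P - N` generates an admissible map, then on the Borel sets of latitudes
`N ≤ P + (n-1) P(S \ poles) |t|/(1-t²) dt` (and `N ≤ P` at the poles).  If the image of `N` is singular to Lebesgue measure and to the image of `P` (for example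
if `P - N` is a linear combination of averages over latitudes and of point masses at the poles), `P - N` generates an admissible map if and only if `N = 0`.
-/

set_option autoImplicit false

namespace Pool.Agent.Results.MP_ae3a4d_gt.SingularPart

open MeasureTheory Metric Set Filter Topology
open scoped RealInnerProductSpace ContDiff
open Pool.Agent.Helper62.Mink

/-- convex bodies in `ℝⁿ` -/
abbrev Body (n : ℕ) : Type := ConvexBody (E n)

/-- measures on the unit sphere of `ℝⁿ` -/
abbrev SphereMeasure (n : ℕ) : Type := Measure (sphere (0 : E n) 1)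

/-- `∫ F(w) dP(w)` over the unit sphere -/
noncomputable def mean {n : ℕ} (P : SphereMeasure n) (F : E n → ℝ) : ℝ := ∫ w, F (w : E n) ∂P

/-- the measure `P` on the unit sphere is invariant under the rotations which fix `e` -/
def Zonal {n : ℕ} (e : E n) (P : SphereMeasure n) : Prop :=
  ∀ θ : E n ≃ₗᵢ[ℝ] E n, IsRot θ → θ e = e → ∀ F : E n → ℝ, Continuous F →
    mean P (fun w => F (θ w)) = mean P F

/-- `K` has a support function which is `C^∞` off the origin -/
def SmoothBody {n : ℕ} (K : Body n) : Prop := ContDiffOn ℝ ∞ (supp K) {0}ᶜ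

/-- `P - N` generates `T`: `h_{TK}(θ e) = ∫ h_K(θ w) dP(w) - ∫ h_K(θ w) dN(w)` for all rotations `θ` and all
`K` with `C^∞` support function -/
def Generates {n : ℕ} (e : E n) (P N : SphereMeasure n) (T : Body n → Body n) : Prop :=
  ∀ K : Body n, SmoothBody K → ∀ θ : E n ≃ₗᵢ[ℝ] E n, IsRot θ →
    supp (T K) (θ e) = mean P (fun w => supp K (θ w)) - mean N (fun w => supp K (θ w))

/-- `P - N` generates an admissible map -/
def GeneratesAdmissible {n : ℕ} (e : E n) (P N : SphereMeasure n) : Prop :=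
  ∃ T : Body n → Body n, Admissible T ∧ Generates e P N T

/-- the image of `P` under `w ↦ ⟨e, w⟩`: `height e P B` is the `P`-measure of the latitudes in `B` -/
noncomputable def height {n : ℕ} (e : E n) (P : SphereMeasure n) : Measure ℝ :=
  P.map fun w : sphere (0 : E n) 1 => (inner ℝ e (w : E n) : ℝ)

/-- the measure `|t| / (1 - t²) dt` on `(-1, 1)` -/
noncomputable def wt : Measure ℝ :=
  (volume.restrict (Ioo (-1 : ℝ) 1)).withDensity fun t => ENNReal.ofReal (|t| / (1 - t ^ 2))

theorem result (n : ℕ) (hn : 3 ≤ n) (e : E n) (he : ‖e‖ = 1) (P N : SphereMeasure n)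
    (hP : IsFiniteMeasure P) (hN : IsFiniteMeasure N) (zP : Zonal e P) (zN : Zonal e N) :
    (GeneratesAdmissible e P N → ∀ B : Set ℝ, MeasurableSet B →
      height e N B ≤ height e P B + ENNReal.ofReal (((n : ℝ) - 1) *
        (P {w | (w : E n) ≠ e ∧ (w : E n) ≠ -e}).toReal) * wt B) ∧
    (height e N ⟂ₘ volume → height e P ⟂ₘ height e N →
      (GeneratesAdmissible e P N ↔ N = 0)) := by
  have hA := Pool.Agent.Helper72.PM.hA
  have hB := Pool.Agent.Helper71.PM.hB
  have hD := Pool.Agent.Helper55.PM.hD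
  have hE := Pool.Agent.Helper22.PM.hE
  have hF := Pool.Agent.Helper57.PM.hF hB
  have hG := Pool.Agent.Helper36.PM.hG
  have hL := Pool.Agent.Helper60.PM.hL
  have hXA := Pool.Agent.Helper87.PM.hXA
  have hXB := Pool.Agent.Helper45.PM.hXB hXA
  have hXC := Pool.Agent.Helper85.PM.hXC hA hB hXA
  have hXL := Pool.Agent.Helper48.PM.hXL hA hXA
  have hXD := Pool.Agent.Helper27.PM.hXD hA hD hXA hXB hXL
  have hXE := Pool.Agent.Helper47.PM.hXE hA hD hE hL hXA hXC
  have hXF := Pool.Agent.Helper88.PM.hXF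
  have hXG := Pool.Agent.Helper51.PM.hXG hA hXA
  have hXH := Pool.Agent.Helper17.PM.hXH hD hL hXG
  have hXI := Pool.Agent.Helper21.PM.hXI hD hXA hXF hXG hXH
  have hXJ := Pool.Agent.Helper98.PM.hXJ
  have hXK := Pool.Agent.Helper70.PM.hXK hD hXF hXI hXJ
  have hXM := Pool.Agent.Helper62.PM.hXM
  have hNZ := Pool.Agent.Helper62.PM.hNZ hA hD hXA hXB hXC
  have hNA := Pool.Agent.Helper51.PM.hNA hA
  have hNB := Pool.Agent.Helper80.PM.hNB hD hE hF hNZ hNA
  have hNC := Pool.Agent.Helper66.PM.hNC hNB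
  have hNM := Pool.Agent.Helper56.PM.hNM
  have hND := Pool.Agent.Helper69.PM.hND hNC hNM
  have hNP := Pool.Agent.Helper73.PM.hNP hNB
  have hNE := Pool.Agent.Helper16.PM.hNE hA
  have hNF := Pool.Agent.Helper29.PM.hNF hA hNE
  have hC := Pool.Agent.Helper3.PM.hC hA hB
  have hPA := Pool.Agent.Helper53.PM.hPA
  have hPB := Pool.Agent.Helper55.PM.hPB
  have hPC := Pool.Agent.Helper15.PM.hPC hA
  have hPD := Pool.Agent.Helper40.PM.hPD hA hC hD
  have hPE := Pool.Agent.Helper84.PM.hPE hC hD hPA hPB hPC hPD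
  have hPF := Pool.Agent.Helper27.PM.hPF
  have hm : Measurable fun w : sphere (0 : E n) 1 => (inner ℝ e (w : E n) : ℝ) := by
    have : Continuous fun w : sphere (0 : E n) 1 => (inner ℝ e (w : E n) : ℝ) := by fun_prop
    exact this.measurable
  have m₁ : e ∈ sphere (0 : E n) 1 := by simp [he]
  have m₂ : -e ∈ sphere (0 : E n) 1 := by simp [he]
  refine ⟨?_, fun h2 h3 => ⟨?_, ?_⟩⟩
  · rintro ⟨T, hT, hg⟩ B hB
    obtain ⟨T', -, hg', -, -, -⟩ := Pool.Agent.Helper62.PM.poles hA hD hE hF hG hXA hXB hXC hXD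
      hXE hXK hXM hNZ hNP hPE hPF hn he hP hN zP zN hT hg ⟨e, m₁⟩ ⟨-e, m₂⟩ rfl rfl
    have h1 := Pool.Agent.Helper62.PM.neg_part_off hND hNP hn he hP hN zP zN hg
      (Pool.Agent.Helper62.PM.zon_poles he hP zP) (Pool.Agent.Helper62.PM.zon_poles he hN zN)
      hg' B hB
    have e1 : height e N B = N {w | (inner ℝ e (w : E n) : ℝ) ∈ B} := by
      unfold height
      rw [Measure.map_apply hm hB]
      rfl
    have e2 : height e P B = P {w | (inner ℝ e (w : E n) : ℝ) ∈ B} := by
      unfold height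
      rw [Measure.map_apply hm hB]
      rfl
    have e3 : wt B = ∫⁻ t in B ∩ Ioo (-1 : ℝ) 1, ENNReal.ofReal (|t| / (1 - t ^ 2)) := by
      unfold wt
      rw [withDensity_apply _ hB, Measure.restrict_restrict hB]
    rw [e1, e2, e3]
    exact h1
  · rintro ⟨T, -, hg⟩
    exact Pool.Agent.Helper62.PM.sing hND hNP hn he hP hN zP zN hg h2 h3
  · rintro rfl
    exact Pool.Agent.Helper62.PM.suff hA hD hE hF hG hXA hXB hXC hXD hXE hXK hXM hNF hn he hP zP

end Pool.Agent.Results.MP_ae3a4d_gt.SingularPart
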