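import Pool.Agent.Helper62.Mink.Final3

/-!
# Admissible maps generated by star-shaped and concave densities

For `n ≥ 3` and a continuous density `f` on `[-1, 1]` which is concave, or more generally
satisfies `f (s t) ≥ s f(t)` for `0 ≤ s ≤ 1` (that is, `f(t)/t` is nonincreasing on each side of
the origin), the zonal measure `f ⟨e, w⟩ dσ(w)` generates an admissible map (a continuous,
Minkowski additive, rotation equivariant map of convex bodies) if and only if
`∫_0^π f(cos θ) cos² θ sin^{n-3} θ dθ ≥ 0`.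
-/

namespace Pool.Agent.Results.MP_ae3a4d_gt.StarDensity

open MeasureTheory Metric Set
open Pool.Agent.Helper62.Mink

theorem result (n : ℕ) (hn : 3 ≤ n) (e : E n) (he : ‖e‖ = 1) (f : ℝ → ℝ)
    (hf : ContinuousOn f (Icc (-1) 1))
    (hS : ConcaveOn ℝ (Icc (-1) 1) f ∨
      ∀ s ∈ Icc (0 : ℝ) 1, ∀ t ∈ Icc (-1 : ℝ) 1, s * f t ≤ f (s * t)) :
    (∃ T : ConvexBody (E n) → ConvexBody (E n), Admissible T ∧ Generates e f T) ↔
      0 ≤ ∫ θ in (0 : ℝ)..Real.pi, f (Real.cos θ) * Real.cos θ ^ 2 * Real.sin θ ^ (n - 3) :=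
  star_density n hn e he f hf hS

end Pool.Agent.Results.MP_ae3a4d_gt.StarDensity
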